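import Mathlib
import Pool.Agent.H455.RT8

set_option autoImplicit false

/-!
# MP_26d9ad_nt: integral points above sparse points of affine space

Let `X` be an affine variety over `ℤ` of dimension `n` with a (generically) finite morphism to the
affine space of dimension `n`; we write its points as `(x, y)`, where `x` has `n` coordinates and
every one of the `m` coordinates of `y` is a root of a polynomial `F j (x, T)`. Let `S` be a finite
set of primes. The integral point `x` is sparse here if `b x = V 0 * u 0 + ... + V r * u r` with an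
integer `b ≠ 0` and integral vectors `V i`, all with coordinates of absolute value at most `M`,
`V 0 ≠ 0`, and positive integers `u i` composed of the primes in `S` such that the first one
dominates, `u i ≤ (u 0) ^ (1 - η)` for `i ≠ 0`. The coordinates of `y` are ARBITRARY integers.

For all `n, m, e, d, r, H, S, η` there is ONE constant `C` such that for ALL varieties `X` given by
`e` equations `Φ i = 0` and ALL polynomials `F j`, all of degree at most `d` with integral
coefficients of absolute value at most `M`, every integral point `(x, y)` of `X` above a sparse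
point `x` satisfies `|x_k|, |y_j| ≤ (2 M) ^ C` or is on the image in `X` of a nonconstant Laurent
curve over `ℚ`, with exponents between `-C` and `C`, provided that the polynomials `F j` are tame at
the leading direction `V 0 / b` of `x`: the parts of highest weight of `F j (V 0 / b, T)`, for all
positive weights, have no multiple roots apart from `0` and are bounded up to scaling.

A nonconstant Laurent curve is a nonconstant morphism of the multiplicative group: on a variety all
of whose subvarieties are of log-general type there are none, and then the coordinates of all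
integral points above sparse points are bounded by a fixed power of `2 M`, uniformly in the family of
all such varieties. There are no assumptions on the divisor at infinity, it may be irreducible (as
for `y ^ 2 = f (x_1, x_2)`).
-/

namespace Pool.Agent.Results.MP_26d9ad_nt.AboveSparsePoints

open MvPolynomial

/-- The weight `p (i_1 + ... + i_n) + q j` of the monomial `x_1 ^ i_1 ⋯ x_n ^ i_n T ^ j`. The
variable `T` has the index `none`. -/
def weight {n : ℕ} (p q : ℕ) (m : Option (Fin n) →₀ ℕ) : ℕ := p * (∑ k, m (some k)) + q * m none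

/-- The highest weight of a monomial of `F`. -/
def topWeight {n : ℕ} (p q : ℕ) (F : MvPolynomial (Option (Fin n)) ℤ) : ℕ :=
  F.support.sup (weight p q)

/-- The polynomial `F_{p,q} (ρ, τ T)` in `T`, where `F_{p,q}` is the sum of the terms of `F` of
the highest weight. -/
noncomputable def leading {n : ℕ} (p q : ℕ) (F : MvPolynomial (Option (Fin n)) ℤ) (ρ : Fin n → ℚ)
    (τ : ℚ) : Polynomial ℚ :=
  ∑ m ∈ F.support with weight p q m = topWeight p q F,
    Polynomial.C (((F.coeff m : ℤ) : ℚ) * (∏ k, ρ k ^ m (some k)) * τ ^ m none) *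
      Polynomial.X ^ m none

/-- For all weights `p, q ≥ 1` there are nonzero integers `g`, `h` of absolute value at most `M`
such that `F_{p,q} (ρ, (h / g) T) = c T ^ l E (T)`, `c ≠ 0`, where `E` is squarefree with integral
coefficients of absolute value at most `H`. -/
def Tame {n : ℕ} (F : MvPolynomial (Option (Fin n)) ℤ) (H : ℕ) (M : ℝ) (ρ : Fin n → ℚ) : Prop :=
  ∀ p q : ℕ, 1 ≤ p → 1 ≤ q → ∃ (g h : ℤ) (c : ℚ) (l : ℕ) (E : Polynomial ℤ),
    g ≠ 0 ∧ h ≠ 0 ∧ c ≠ 0 ∧ |(g : ℝ)| ≤ M ∧ |(h : ℝ)| ≤ M ∧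
    Squarefree (E.map (Int.castRingHom ℚ)) ∧ (∀ i, |E.coeff i| ≤ H) ∧
    leading p q F ρ (h / g) = Polynomial.C c * Polynomial.X ^ l * E.map (Int.castRingHom ℚ)

/-- For all weights `p, q ≥ 1` the coefficients of `F_{p,q}` are of absolute value at most `H` and
`F_{p,q} (ρ, T)` is the product of a power of `T` and a squarefree polynomial. -/
def BoundedTop {n : ℕ} (F : MvPolynomial (Option (Fin n)) ℤ) (H : ℕ) (ρ : Fin n → ℚ) : Prop :=
  ∀ p q : ℕ, 1 ≤ p → 1 ≤ q →
    (∀ m ∈ F.support, weight p q m = topWeight p q F → |F.coeff m| ≤ H) ∧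
      ∃ (l : ℕ) (G : Polynomial ℚ), Squarefree G ∧ leading p q F ρ 1 = Polynomial.X ^ l * G

/-- `b x = ∑ V i * u i`, where the `u i` are positive integers with all prime factors in `S`, the
first one dominates, and `b ≠ 0` and the coordinates of the `V i` are integers of absolute value at
most `M`, `V 0 ≠ 0`. -/
structure Sparse {n r : ℕ} (S : Finset ℕ) (η M : ℝ) (V : Fin (r + 1) → Fin n → ℤ) (b : ℤ)
    (u : Fin (r + 1) → ℕ) (x : Fin n → ℤ) : Prop where
  smooth : ∀ i, u i ≠ 0 ∧ (u i).primeFactors ⊆ S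
  dominating : ∀ i, i ≠ 0 → (u i : ℝ) ≤ (u 0 : ℝ) ^ (1 - η)
  bounded : ∀ i k, |(V i k : ℝ)| ≤ M
  first : V 0 ≠ 0
  denominator : b ≠ 0 ∧ |(b : ℝ)| ≤ M
  eq : ∀ k, b * x k = ∑ i, V i k * (u i : ℤ)

/-- The point with the parameter `t` of the Laurent curve with the coefficients `c k`,
`-E ≤ k ≤ E`. -/
noncomputable def laurentPoint {N : ℕ} (E : ℕ) (c : ℤ → Fin N → ℚ) (t : ℚ) : Fin N → ℚ :=
  fun a => ∑ k ∈ Finset.Icc (-(E : ℤ)) E, t ^ k * c k a

/-- The point `z` is on the image of a nonconstant Laurent curve with exponents between `-E` and `E`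
which is contained in the variety `Φ = 0`. -/
def OnLaurentCurve {N e : ℕ} (Φ : Fin e → MvPolynomial (Fin N) ℤ) (E : ℕ) (z : Fin N → ℤ) : Prop :=
  ∃ c : ℤ → Fin N → ℚ,
    (∀ t : ℚ, t ≠ 0 → ∀ i, aeval (laurentPoint E c t) (Φ i) = 0) ∧
    (∀ a, laurentPoint E c 1 a = z a) ∧ ∃ k ∈ Finset.Icc (-(E : ℤ)) E, k ≠ 0 ∧ c k ≠ 0

theorem val_eq {n : ℕ} (F : MvPolynomial (Option (Fin n)) ℤ) (x : Fin n → ℤ) (Y : ℤ) :
    Pool.Agent.H455.RT.val F x (Y : ℝ) =
      ((eval (fun o : Option (Fin n) => o.elim Y x) F : ℤ) : ℝ) := by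
  unfold Pool.Agent.H455.RT.val
  have h1 := MvPolynomial.eval₂_comp_left (Int.castRingHom ℝ) (RingHom.id ℤ)
    (fun o : Option (Fin n) => o.elim Y x) F
  rw [RingHom.comp_id] at h1
  have h2 : (Int.castRingHom ℝ) (eval (fun o : Option (Fin n) => o.elim Y x) F) =
      ((eval (fun o : Option (Fin n) => o.elim Y x) F : ℤ) : ℝ) := rfl
  rw [← h2, MvPolynomial.eval, MvPolynomial.coe_eval₂Hom, h1]
  congr 1
  funext o
  cases o <;> simp

/-- **Main theorem.** -/
theorem result (n m e d r H : ℕ) (S : Finset ℕ) (η : ℝ) (hη : 0 < η) :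
    ∃ C : ℕ, ∀ (Φ : Fin e → MvPolynomial (Fin (n + m)) ℤ)
      (F : Fin m → MvPolynomial (Option (Fin n)) ℤ) (M : ℝ), 1 ≤ M →
      (∀ i, (Φ i).totalDegree ≤ d) → (∀ i α, |(((Φ i).coeff α : ℤ) : ℝ)| ≤ M) →
      (∀ j, (F j).totalDegree ≤ d) → (∀ j α, |(((F j).coeff α : ℤ) : ℝ)| ≤ M) →
      ∀ (V : Fin (r + 1) → Fin n → ℤ) (b : ℤ) (u : Fin (r + 1) → ℕ) (x : Fin n → ℤ)
        (y : Fin m → ℤ), Sparse S η M V b u x →
      (∀ i, eval (Fin.append x y) (Φ i) = 0) →
      (∀ j, eval (fun o : Option (Fin n) => o.elim (y j) x) (F j) = 0) →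
      (∀ j, ∃ Y : ℤ, eval (fun o : Option (Fin n) => o.elim Y x) (F j) ≠ 0) →
      (∀ j, Tame (F j) H M (fun k => (V 0 k : ℚ) / b) ∨
        ((∀ k, |V 0 k| ≤ H) ∧ |b| ≤ H ∧ BoundedTop (F j) H (fun k => (V 0 k : ℚ) / b))) →
      (∀ a, |((Fin.append x y a : ℤ) : ℝ)| ≤ (2 * M) ^ C) ∨
        OnLaurentCurve Φ C (Fin.append x y) := by
  classical
  have hSp : ∀ p ∈ S.filter Nat.Prime, p.Prime := fun p hp => (Finset.mem_filter.1 hp).2
  by_contra hcon
  push Not at hcon
  choose Φ F M hM hΦd hΦc hF hcoef V b u x y hsp hΦ0 hxy hne htame hbig hno using hcon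
  obtain ⟨H', hH'⟩ : ∃ H' : ℕ, H' = H + Pool.Agent.H455.RT.nmx n d * H ^ (d + 1) := ⟨_, rfl⟩
  have hTame : ∀ C j, Pool.Agent.H455.RT.Tamex (F C j) H' (M C)
      (fun k => (V C 0 k : ℚ) / b C) := by
    intro C j p q hp hq
    rcases htame C j with h | ⟨h1, h2, h3⟩
    · obtain ⟨g, h, c, l, E, e1, e2, e3, e4, e5, e6, e7, e8⟩ := h p q hp hq
      refine ⟨g, h, c, l, E, e1, e2, e3, e4, e5, e6, fun i => (e7 i).trans ?_, e8⟩
      rw [hH']
      push_cast
      have : (0 : ℤ) ≤ (Pool.Agent.H455.RT.nmx n d : ℤ) * (H : ℤ) ^ (d + 1) := by positivity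
      linarith
    · have hb1 := Int.one_le_abs (hsp C).denominator.1
      have hH1 : 1 ≤ H := by
        have : (1 : ℤ) ≤ H := hb1.trans h2
        exact_mod_cast this
      obtain ⟨g, h, c, l, E, e1, e2, e3, e4, e5, e6, e7, e8⟩ :=
        Pool.Agent.H455.RT.tamex_of_bounded (F C j) (hF C j) (V C 0) (b C) hH1
          (hsp C).denominator.1 h1 h2 (M C) (hM C) (fun p q hp hq => h3 p q hp hq) p q hp hq
      refine ⟨g, h, c, l, E, e1, e2, e3, e4, e5, e6, fun i => (e7 i).trans ?_, e8⟩
      rw [hH']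
      push_cast
      have : (0 : ℤ) ≤ (H : ℤ) := by positivity
      linarith
  let D : ℕ → Pool.Agent.H455.RT.Big n m d r H' (S.filter Nat.Prime) η := fun C =>
    { M := M C
      V := V C
      b := b C
      u := u C
      x := x C
      F := F C
      y := y C
      hM := hM C
      hu := fun i => ⟨((hsp C).smooth i).1, fun p hp => Finset.mem_filter.2
        ⟨((hsp C).smooth i).2 hp, Nat.prime_of_mem_primeFactors hp⟩⟩
      hdom := (hsp C).dominating
      hV := (hsp C).bounded
      hb := (hsp C).denominator.2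
      hb0 := (hsp C).denominator.1
      hx := (hsp C).eq
      hF := hF C
      hcoef := hcoef C
      hxy := fun j => by rw [val_eq, hxy C j, Int.cast_zero]
      hne := fun j => by
        obtain ⟨Y, hY⟩ := hne C j
        refine ⟨(Y : ℝ), ?_⟩
        rw [val_eq]
        exact_mod_cast hY
      tame := hTame C }
  obtain ⟨hL, hMS⟩ := Pool.Agent.H455.RT.sizes_big hη D fun C => hbig C
  refine Pool.Agent.H455.RT.noseq_big hη hSp D Φ hΦd hΦc (fun C i => ?_)
    (fun C => (hsp C).first) hL hMS fun C hC => hno C ?_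
  · show aeval (Fin.append (x C) (y C)) (Φ C i) = 0
    rw [← hΦ0 C i, MvPolynomial.aeval_def, MvPolynomial.eval, MvPolynomial.coe_eval₂Hom]
    rfl
  · exact hC

end Pool.Agent.Results.MP_26d9ad_nt.AboveSparsePoints
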