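import Pool.Agent.H435.QL.FMain

/-!
MP_26d9ad_nt, Q1 (in its non-density form): integral points on the complements of generic
hypersurfaces, in the borderline case; in particular on the complements of generic plane quartics.

Let `K` be an algebraically closed field of characteristic `0`, and let `k` be a field contained in
`K`, with algebraic closure `k'` in `K`. Let `F` be a form of degree `d` in `n + 1 ≥ 3` variables
over `K` such that the ratios of its coefficients to one of them are algebraically independent over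
`k`, and let `U` be the complement of the hypersurface `F = 0` in projective space of dimension `n`.
An exceptional line is a line that meets `F = 0` in at most two points. Suppose that
`3 n + 2 ≤ 2 d`. (So the new case is `2 d = 3 n + 2`, for even `n`: the quartics in the plane, the
hypersurfaces of degree seven in `P⁴`, and so on.) Then `U` is of log general type, and:

(1) for every finitely generated subring `R` of `K` (over the integers), all but finitely many of the
    points of `U` over `R` lie on exceptional lines, and every exceptional line contains infinitely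
    many points of `U` over some finitely generated ring;
(2) all exceptional lines are contained in `H = 0`, for a form `H ≠ 0`, and over every finitely
    generated ring, `U` has only finitely many points outside of `H = 0`. So the points of `U` over
    `R` are not dense, and up to finitely many they are in a proper closed subset that does not
    depend on `R`;
(3) for `n = 2`, there are only finitely many exceptional lines (the flex lines and the bitangents of
    the quartic if `d = 4`);
(4) for every form `G`: the points of `U` over every finitely generated ring are, up to finitely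
    many, in `G = 0`, if and only if `G` vanishes on all exceptional lines;
(5) for every subring `R` of a finitely generated algebra over `k'`, all but finitely many of the
    points of `U` over `R` lie on exceptional lines, or on finitely many other lines and finitely
    many conics.

The points of `U` over `R` are the points for which all quotients of monomials of degree `d` by `F`
are in `R`.
-/

set_option autoImplicit false

namespace Pool.Agent.Results.MP_26d9ad_nt.BorderlineHypersurfaces

open MvPolynomial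
open LinearAlgebra.Projectivization

/-- The points over the ring `R` of the complement of the hypersurface `F = 0` of degree `d`. -/
def IntegralPoints {K : Type} [Field K] {n : ℕ} (F : MvPolynomial (Fin (n + 1)) K) (d : ℕ)
    (R : Subring K) : Set (ℙ K (Fin (n + 1) → K)) :=
  {p | eval p.rep F ≠ 0 ∧
    ∀ I : Fin (n + 1) →₀ ℕ, I.degree = d → (∏ i, p.rep i ^ I i) / eval p.rep F ∈ R}

/-- A line, given by a vector space of dimension two, that meets `F = 0` in at most two points. -/
def Exceptional {K : Type} [Field K] {n : ℕ} (F : MvPolynomial (Fin (n + 1)) K)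
    (W : Submodule K (Fin (n + 1) → K)) : Prop :=
  Module.finrank K W = 2 ∧
    {p : ℙ K (Fin (n + 1) → K) | p.rep ∈ W ∧ eval p.rep F = 0}.encard ≤ 2

/-- A smooth conic in projective space. -/
def IsConic {K : Type} [Field K] {n : ℕ} (Z : Set (ℙ K (Fin (n + 1) → K))) : Prop :=
  ∃ u : Fin 3 → Fin (n + 1) → K, LinearIndependent K u ∧
    Z = {p | ∃ s t a : K, p.rep = a • (s ^ 2 • u 0 + (s * t) • u 1 + t ^ 2 • u 2)}

/-- Over every finitely generated ring, there are only finitely many points outside of `G = 0`. -/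
def FiniteOutside {K : Type} [Field K] {n : ℕ} (F : MvPolynomial (Fin (n + 1)) K) (d : ℕ)
    (G : MvPolynomial (Fin (n + 1)) K) : Prop :=
  ∀ (T : Finset K) (R : Subring K), R ≤ Subring.closure (T : Set K) →
    {p | p ∈ IntegralPoints F d R ∧ eval p.rep G ≠ 0}.Finite

theorem result {k K : Type} [Field k] [Field K] [IsAlgClosed K] [CharZero K] [Algebra k K]
    {n d : ℕ} (hn : 2 ≤ n) (hd : 3 * n + 2 ≤ 2 * d)
    -- the form; the ratios of its coefficients are algebraically independent over `k`
    (F : MvPolynomial (Fin (n + 1)) K) (hF : F.IsHomogeneous d)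
    (I0 : {I : Fin (n + 1) →₀ ℕ // I.degree = d}) (h0 : F.coeff I0.1 ≠ 0)
    (hgen : AlgebraicIndependent k
      fun I : {I : {I : Fin (n + 1) →₀ ℕ // I.degree = d} // I ≠ I0} =>
        F.coeff I.1.1 / F.coeff I0.1) :
    -- (1) the points over finitely generated rings
    (∀ (T : Finset K) (R : Subring K), R ≤ Subring.closure (T : Set K) →
      {p | p ∈ IntegralPoints F d R ∧ ¬ ∃ W, Exceptional F W ∧ p.rep ∈ W}.Finite) ∧
    (∀ W, Exceptional F W → ∃ T : Finset K,
      {p | p ∈ IntegralPoints F d (Subring.closure (T : Set K)) ∧ p.rep ∈ W}.Infinite) ∧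
    -- (2) the exceptional lines are contained in a proper closed subset
    (∃ (H : MvPolynomial (Fin (n + 1)) K) (e : ℕ), H.IsHomogeneous e ∧ H ≠ 0 ∧
      (∀ W, Exceptional F W → ∀ v ∈ W, eval v H = 0) ∧ FiniteOutside F d H) ∧
    -- (3) the exceptional lines in the plane
    (n = 2 → {W | Exceptional F W}.Finite) ∧
    -- (4) the arithmetic special set
    (∀ (G : MvPolynomial (Fin (n + 1)) K) (e : ℕ), G.IsHomogeneous e →
      ((∀ W, Exceptional F W → ∀ v ∈ W, eval v G = 0) ↔ FiniteOutside F d G)) ∧
    -- (5) the points over the subrings of finitely generated algebras over the algebraic closure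
    -- of `k`
    ∀ (T : Finset K) (R : Subring K),
      R ≤ Subring.closure ((algebraicClosure k K : Set K) ∪ (T : Set K)) →
      ∃ (L : Set (Submodule K (Fin (n + 1) → K))) (Z : Set (Set (ℙ K (Fin (n + 1) → K)))),
        L.Finite ∧ Z.Finite ∧ (∀ W ∈ L, Module.finrank K W = 2) ∧ (∀ C ∈ Z, IsConic C) ∧
        {p | p ∈ IntegralPoints F d R ∧ (¬ ∃ W, (Exceptional F W ∨ W ∈ L) ∧ p.rep ∈ W) ∧
          ∀ C ∈ Z, p ∉ C}.Finite := by
  classical
  obtain ⟨dd, hdd⟩ : ∃ dd, d = dd + 3 := ⟨d - 3, by omega⟩
  obtain ⟨F', hF'⟩ : ∃ F' : Unit → MvPolynomial (Fin (n + 1)) K, F' = fun _ => F := ⟨_, rfl⟩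
  obtain ⟨d', hd'⟩ : ∃ d' : Unit → ℕ, d' = fun _ => d := ⟨_, rfl⟩
  have hF'u : F' () = F := by rw [hF']
  have hd'u : d' () = d := by rw [hd']
  have hF'h : ∀ a, (F' a).IsHomogeneous (d' a) := fun a => by
    rw [hF', hd']
    exact hF
  have h0' : ∀ a : Unit, (F' a).coeff ((fun _ => I0.1) a) ≠ 0 := fun a => by
    rw [hF']
    exact h0
  have hind : AlgebraicIndependent k fun p : Pool.Agent.TH145.GC.Rt d' (fun _ => I0.1) =>
      (F' p.1).coeff p.2.1 / (F' p.1).coeff ((fun _ => I0.1) p.1) := by
    subst hF' hd'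
    exact hgen.comp (fun p : Pool.Agent.TH145.GC.Rt (fun _ : Unit => d) (fun _ => I0.1) =>
      (⟨⟨p.2.1, p.2.2.1⟩, fun h => p.2.2.2 (congrArg Subtype.val h)⟩ :
        {I : {I : Fin (n + 1) →₀ ℕ // I.degree = d} // I ≠ I0})) (by
          rintro ⟨a, ⟨I, hI⟩⟩ ⟨a', ⟨I', hI'⟩⟩ h
          have e3 : I = I' := congrArg (fun z => z.1.1) h
          subst e3
          rfl)
  have hdg : d' () = dd + 3 := by rw [hd'u, hdd]
  have hd2 : 3 * n + 2 ≤ 2 * d' () := by rw [hd'u]; exact hd
  have hRP : ∀ R : Subring K, Pool.Agent.Y741.RPts F' d' ∅ R = IntegralPoints F d R := by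
    intro R
    ext p
    constructor
    · rintro ⟨-, h⟩
      have h1 := h () (Finset.notMem_empty _)
      rw [hF'u, hd'u] at h1
      exact h1
    · intro h
      refine ⟨fun c hc => absurd hc (Finset.notMem_empty c), fun b _ => ?_⟩
      rw [hF', hd']
      exact h
  have hBd : ∀ W : Submodule K (Fin (n + 1) → K),
      Pool.Agent.Y741.Pts W ∩ Pool.Agent.Y741.Bd F' ∅ =
        {p : ℙ K (Fin (n + 1) → K) | p.rep ∈ W ∧ eval p.rep F = 0} := by
    intro W
    ext p
    constructor
    · rintro ⟨h1, b, -, h2⟩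
      rw [hF'] at h2
      exact ⟨h1, h2⟩
    · rintro ⟨h1, h2⟩
      exact ⟨h1, (), Finset.notMem_empty _, by rw [hF'u]; exact h2⟩
  have hLine : ∀ W : Submodule K (Fin (n + 1) → K), Module.finrank K W = 2 →
      Pool.Agent.Y741.IsLine F' ∅ W := fun W hW =>
    ⟨hW, fun c hc => absurd hc (Finset.notMem_empty c)⟩
  have hEx : ∀ W : Submodule K (Fin (n + 1) → K), (Pool.Agent.Y741.IsLine F' ∅ W ∧
      (Pool.Agent.Y741.Pts W ∩ Pool.Agent.Y741.Bd F' ∅).encard ≤ 2) ↔ Exceptional F W := by
    intro W
    rw [hBd]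
    exact ⟨fun h => ⟨h.1.1, h.2⟩, fun h => ⟨hLine W h.1, h.2⟩⟩
  have h3 : ∀ W : Submodule K (Fin (n + 1) → K), Pool.Agent.Y741.IsLine F' ∅ W →
      ¬ Exceptional F W → 3 ≤ (Pool.Agent.Y741.Pts W ∩ Pool.Agent.Y741.Bd F' ∅).encard := by
    intro W hW hE
    have h4 : ¬ (Pool.Agent.Y741.Pts W ∩ Pool.Agent.Y741.Bd F' ∅).encard ≤ 2 :=
      fun h => hE ((hEx W).1 ⟨hW, h⟩)
    rw [not_le] at h4
    exact Order.add_one_le_of_lt h4
  have harith : ∀ (G : MvPolynomial (Fin (n + 1)) K) (e : ℕ), G.IsHomogeneous e →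
      ((∀ W, Exceptional F W → ∀ v ∈ W, eval v G = 0) ↔ FiniteOutside F d G) := by
    intro G e hG
    have h4 := Pool.Agent.H435.QL.arith_Q hdg (by omega) hd2 F' hF'h _ h0' hind hG
    constructor
    · intro h T R hR
      have h5 := h4.1 (fun W hW => h W ((hEx W).1 hW)) T R hR
      rw [hRP] at h5
      exact h5
    · intro h W hW
      refine h4.2 (fun T R hR => ?_) W ((hEx W).2 hW)
      rw [hRP]
      exact h T R hR
  obtain ⟨H, e, hHe, hH0, hH⟩ := Pool.Agent.H435.QL.exists_H_Q hdg hn hd2 F' hF'h _ h0' hind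
  have hHex : ∀ W, Exceptional F W → ∀ v ∈ W, eval v H = 0 := fun W hW =>
    hH W ((hEx W).2 hW).1 ((hEx W).2 hW).2
  refine ⟨fun T R hR => ?_, fun W hW => ?_, ⟨H, e, hHe, hH0, hHex, (harith H e hHe).1 hHex⟩,
    fun hn2 => ?_, harith, fun T R hR => ?_⟩
  · refine (Pool.Agent.H435.QL.main_fgQ hdg (by omega) hd2 F' hF'h _ h0' hind T R hR).subset ?_
    rintro p ⟨hp, hpE⟩
    rw [← hRP] at hp
    exact ⟨hp, fun W hW hpW => h3 W hW fun hE => hpE ⟨W, hE, hpW⟩⟩
  · obtain ⟨T, hT⟩ := Pool.Agent.Y741.conv_line hF'h ((hEx W).2 hW).1 ((hEx W).2 hW).2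
    refine ⟨T, ?_⟩
    rw [hRP] at hT
    exact hT
  · have hinf : Infinite K := IsAlgClosed.instInfinite
    refine (Pool.Agent.H435.QL.fin_hyp hHe hH0).subset ?_
    intro W hW
    exact ⟨by rw [hW.1, hn2], hHex W hW⟩
  · obtain ⟨L, Q, hL1, hQ1, hL2, hQ2, hL3⟩ :=
      Pool.Agent.H435.QL.main_kQ hdg (by omega) hd2 F' hF'h _ h0' hind T R hR
    obtain ⟨g, hg⟩ : ∃ g : ((Fin (n + 1) → Fin (2 + 1) → K) × (Fin (2 + 1) → Fin (n + 1) → K)) →
        Set (ℙ K (Fin (n + 1) → K)), ∀ q, g q = {p | ∃ s t a : K, p.rep =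
          a • (s ^ 2 • (fun l => q.1 l 0) + (s * t) • (fun l => q.1 l 1) +
            t ^ 2 • fun l => q.1 l 2)} := ⟨_, fun _ => rfl⟩
    refine ⟨L, g '' Q, hL1, hQ1.image g, fun W hW => (hL2 W hW).1.1, ?_, hL3.subset ?_⟩
    · rintro _ ⟨q, hq, rfl⟩
      refine ⟨fun j l => q.1 l j, ?_, hg q⟩
      rw [Fintype.linearIndependent_iff]
      intro c hc i
      have h5 := hQ2 q hq
      have h6 : ∑ l, q.2 i l * (∑ j, c j • fun l => q.1 l j) l = c i := by
        have h7 : ∀ l, q.2 i l * (∑ j, c j • fun l => q.1 l j) l =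
            ∑ j, c j * (q.2 i l * q.1 l j) := by
          intro l
          rw [Finset.sum_apply, Finset.mul_sum]
          exact Finset.sum_congr rfl fun j _ => by rw [Pi.smul_apply, smul_eq_mul]; ring
        rw [Finset.sum_congr rfl fun l _ => h7 l, Finset.sum_comm]
        have h8 : ∀ j, ∑ l, c j * (q.2 i l * q.1 l j) = if i = j then c j else 0 := by
          intro j
          rw [← Finset.mul_sum, h5, mul_ite, mul_one, mul_zero]
        rw [Finset.sum_congr rfl fun j _ => h8 j, Finset.sum_ite_eq, if_pos (Finset.mem_univ _)]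
      rw [← h6, hc]
      simp
    · rintro p ⟨hp, hpE, hpZ⟩
      rw [← hRP] at hp
      refine ⟨hp, fun W hW hpW => ⟨fun hWL => hpE ⟨W, Or.inr hWL, hpW⟩,
        h3 W hW fun hE => hpE ⟨W, Or.inl hE, hpW⟩⟩, fun q hq hon => ?_⟩
      refine hpZ (g q) ⟨q, hq, rfl⟩ ?_
      rw [hg]
      by_cases ha0 : ∑ m, q.2 0 m * p.rep m = 0
      · have h1 : ∑ m, q.2 1 m * p.rep m = 0 := by
          have h2 := hon.2
          rw [ha0, zero_mul] at h2
          exact pow_eq_zero_iff (by norm_num) |>.1 h2
        refine ⟨0, 1, ∑ m, q.2 2 m * p.rep m, ?_⟩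
        funext l
        have h4 := hon.1 l
        rw [Fin.sum_univ_three, ha0, h1] at h4
        rw [h4]
        simp
        ring
      · obtain ⟨-, h2⟩ := Pool.Agent.H435.QL.onC_norm hon rfl ha0 rfl
        refine ⟨1, (∑ m, q.2 1 m * p.rep m) / ∑ m, q.2 0 m * p.rep m,
          ∑ m, q.2 0 m * p.rep m, ?_⟩
        refine h2.trans ?_
        congr 1
        funext l
        unfold Pool.Agent.H435.QL.cv
        rw [Fin.sum_univ_three]
        simp
        ring

end Pool.Agent.Results.MP_26d9ad_nt.BorderlineHypersurfaces
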