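import Mathlib
import Pool.Agent.H434.H5
import Pool.Graph.R_pool_sql_team_seeded_63374d34.N49.FG.RQ1
import Pool.Graph.R_pool_sql_team_seeded_63374d34.N558.FG.SP
import Pool.Graph.R_pool_sql_team_seeded_63374d34.N441.FG.TR

/-!
MP_26d9ad_nt, Q1: integral points over all finitely generated rings on affine varieties with a map to a
ramified cover of a torus, given by roots of polynomials in unit coordinates.

Outside of a finite set the points which are not on the image of a nonconstant map from the
multiplicative group are, up to algebraic numbers, finitely many, and they lie over finitely many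
translates of subtori for which the polynomials are isotrivial and a condition on leading forms does
not hold. If there is no such translate, for example if `n = 2` and the polynomials are not
isotrivial, then there are only finitely many such points.

A finitely generated domain of characteristic zero is isomorphic to a subring of `ℂ`; if all closed
subvarieties of `V` are of log-general type there is no nonconstant map from the multiplicative group
to `V`.
-/

set_option autoImplicit false

namespace Pool.Agent.Results.MP_26d9ad_nt.CoversOfToriAllRings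

open MvPolynomial

/-- The complex points of the affine variety given by the polynomials `F i`. -/
def Pts {N : ℕ} {ι : Type} (F : ι → MvPolynomial (Fin N) ℂ) : Set (Fin N → ℂ) :=
  {z | ∀ i, eval z (F i) = 0}

/-- The points of `V = {F = 0}` with coordinates in the ring generated by the finite set `s`. -/
def PtsOver {N : ℕ} {ι : Type} (F : ι → MvPolynomial (Fin N) ℂ) (s : Finset ℂ) :
    Set (Fin N → ℂ) :=
  {x | x ∈ Pts F ∧ ∀ j, x j ∈ Subring.closure (s : Set ℂ)}

/-- The function is given by a Laurent polynomial outside of `0`. -/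
def IsLaurent (φ : ℂ → ℂ) : Prop :=
  ∃ (M : ℕ) (Q : Polynomial ℂ), ∀ t, t ≠ 0 → φ t * t ^ M = Q.eval t

/-- The union of the images of the nonconstant maps from the multiplicative group to `V`. -/
def Exc {N : ℕ} {ι : Type} (F : ι → MvPolynomial (Fin N) ℂ) : Set (Fin N → ℂ) :=
  {x | ∃ v : ℂ → Fin N → ℂ, (∀ j, IsLaurent fun t => v t j) ∧ (∀ t, t ≠ 0 → v t ∈ Pts F) ∧
    v 1 = x ∧ ∃ t, t ≠ 0 ∧ v t ≠ x}

/-- The points of `V` which are determined by their coordinates with index in `T`. -/
def Determined {N : ℕ} {ι : Type} (F : ι → MvPolynomial (Fin N) ℂ) (T : Set (Fin N)) :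
    Set (Fin N → ℂ) :=
  {x | ∀ z ∈ Pts F, (∀ i ∈ T, z i = x i) → z = x}

/-- `P` is a monomial times an `m`-th power. -/
def PowForm {r : ℕ} (m : ℕ) (P : MvPolynomial (Fin r) ℂ) : Prop :=
  ∃ (e : Fin r →₀ ℕ) (g : MvPolynomial (Fin r) ℂ), P = monomial e 1 * g ^ m

/-- The leading form of `P` in the direction `l`: the sum of the terms of `P` whose exponents `s` have
the largest scalar product with `l`. -/
noncomputable def lead {r : ℕ} (l : Fin r → ℝ) (P : MvPolynomial (Fin r) ℂ) :
    MvPolynomial (Fin r) ℂ :=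
  open Classical in ∑ s ∈ P.support.filter fun s => ∀ t ∈ P.support,
    ∑ i, (t i : ℝ) * l i ≤ ∑ i, (s i : ℝ) * l i, monomial s (coeff s P)

/-- Either all `P j` are monomials times `m j`-th powers, or there is a linear form `μ` such that for
every nonzero direction `l` with `μ l ≥ 0` there is some `j` such that the leading form of `P j` in the
direction `l` is a monomial times an `m j`-th power, but `P j` is not. -/
def Tame {q r : ℕ} (m : Fin q → ℕ) (P : Fin q → MvPolynomial (Fin r) ℂ) : Prop :=
  (∀ j, PowForm (m j) (P j)) ∨ ∃ μ : Fin r → ℝ, ∀ l : Fin r → ℝ, l ≠ 0 → 0 ≤ ∑ i, μ i * l i →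
    ∃ j, ¬ PowForm (m j) (P j) ∧ PowForm (m j) (lead l (P j))

/-- The polynomial `P(θ t)` in `t`. -/
noncomputable def scale {r : ℕ} (θ : Fin r → ℂ) (P : MvPolynomial (Fin r) ℂ) :
    MvPolynomial (Fin r) ℂ :=
  ∑ b ∈ P.support, monomial b (coeff b P * ∏ i, θ i ^ b i)

/-- After one translation all `P j` are products of polynomials with algebraic coefficients and
`m j`-th powers. -/
def Isotrivial {q r : ℕ} (m : Fin q → ℕ) (P : Fin q → MvPolynomial (Fin r) ℂ) : Prop :=
  ∃ θ : Fin r → ℂ, (∀ i, θ i ≠ 0) ∧ ∀ j, ∃ g h : MvPolynomial (Fin r) ℂ,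
    (∀ b, IsAlgebraic ℚ (coeff b g)) ∧ scale θ (P j) = g * h ^ m j

/-- The polynomial `t ^ κ f(c t ^ a)` in `t = (t 1, …, t r)`, where
`c t ^ a = (c i ∏ j, t j ^ (a i j))`, if the exponents which occur are not negative. -/
noncomputable def pull {n r : ℕ} (κ : Fin r → ℕ) (a : Fin n → Fin r → ℤ) (c : Fin n → ℂ)
    (f : MvPolynomial (Fin n) ℂ) : MvPolynomial (Fin r) ℂ :=
  ∑ b ∈ f.support, monomial (Finsupp.equivFunOnFinite.symm fun j =>
    ((κ j : ℤ) + ∑ i, (b i : ℤ) * a i j).toNat) (coeff b f * ∏ i, c i ^ b i)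

/-- The wild translates: the set of all points if the polynomials `f j` are isotrivial and not tame,
and the translates `{c t ^ a}` of subtori of dimension `r` with `2 ≤ r < n` such that the restrictions
of the `f j`, made polynomials by multiplication with monomials, are isotrivial and not tame. -/
def Wild {q n : ℕ} (m : Fin q → ℕ) (f : Fin q → MvPolynomial (Fin n) ℂ)
    (C : Set (Fin n → ℂ)) : Prop :=
  (C = Set.univ ∧ Isotrivial m f ∧ ¬ Tame m f) ∨ ∃ r : ℕ, 2 ≤ r ∧ r < n ∧
    ∃ (a : Fin n → Fin r → ℤ) (c : Fin n → ℂ) (κ : Fin q → Fin r → ℕ),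
      (∀ j, Pi.single j 1 ∈ Submodule.span ℤ (Set.range a)) ∧ (∀ i, c i ≠ 0) ∧
      (∀ j, ∀ b ∈ (f j).support, ∀ s, 0 ≤ (κ j s : ℤ) + ∑ i, (b i : ℤ) * a i s) ∧
      C = {x | ∃ t : Fin r → ℂ, (∀ j, t j ≠ 0) ∧ ∀ i, x i = c i * ∏ j, t j ^ a i j} ∧
      (Isotrivial m fun j => pull (κ j) a c (f j)) ∧ ¬ Tame m fun j => pull (κ j) a c (f j)

/-- Let `V = {F = 0}` be an affine variety over `ℂ`. Let `x = (z (U 1), …, z (U n))` be coordinates
which have no zeros on `V`, and let `z (J 1), …, z (J q)` be coordinates such that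
`z (J j) ^ (m j) = f j (x)` on `V`, where `m j ≥ 2`. Let `R` be a finitely generated subring of `ℂ`.
Then there are a finite subset `E` of `V(R)` and a finite set of wild translates such that for every
point of `V(R)` which is determined by these coordinates and not on the image of a nonconstant map
from the multiplicative group to `V`, and which is not in `E`, its coordinates `x` are on one of these
translates, and their quotients by the ones of some point of `E` are algebraic numbers. -/
theorem result {N n q : ℕ} {ι : Type} [Finite ι] (F : ι → MvPolynomial (Fin N) ℂ)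
    (U : Fin n → Fin N) (J : Fin q → Fin N) (m : Fin q → ℕ) (hm : ∀ j, 2 ≤ m j)
    (f : Fin q → MvPolynomial (Fin n) ℂ) (hU : ∀ z ∈ Pts F, ∀ i, z (U i) ≠ 0)
    (hJ : ∀ z ∈ Pts F, ∀ j, z (J j) ^ m j = eval (fun i => z (U i)) (f j)) (s : Finset ℂ) :
    ∃ (E : Finset (Fin N → ℂ)) (W : Finset (Set (Fin n → ℂ))), (∀ p ∈ E, p ∈ PtsOver F s) ∧
      (∀ C ∈ W, Wild m f C) ∧
      ∀ x ∈ (PtsOver F s ∩ Determined F (Set.range U ∪ Set.range J)) \ Exc F, x ∉ E →
        (∃ C ∈ W, (fun i => x (U i)) ∈ C) ∧
        ∃ p ∈ E, ∀ i, IsAlgebraic ℚ (x (U i) / p (U i)) := by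
  classical
  have hSP : Pool.Agent.N754.FG.SP :=
    Pool.Agent.N558.FG.sp (Pool.Agent.N455.FG.rq3 Pool.Agent.N49.FG.rq1)
  obtain ⟨E, W, h1, h2, h3⟩ := Pool.Agent.H434.fin_struct hSP Pool.Agent.N441.FG.tr
    (Pool.Agent.N455.FG.rq3 Pool.Agent.N49.FG.rq1) F U J m hm f hU hJ s
    ((PtsOver F s ∩ Determined F (Set.range U ∪ Set.range J)) \ Exc F) (by
    rintro x ⟨⟨⟨h1, h2⟩, h3⟩, h4⟩
    refine ⟨h2, h1, fun h => h4 ?_, ?_⟩
    · exact h
    · rintro ⟨z, hz, hzU, hne⟩
      apply hne
      refine h3 z hz fun i hi => hzU i ?_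
      rcases hi with ⟨l, rfl⟩ | ⟨l, rfl⟩
      · exact Finset.mem_union_left _ (Finset.mem_image_of_mem _ (Finset.mem_univ _))
      · exact Finset.mem_union_right _ (Finset.mem_image_of_mem _ (Finset.mem_univ _)))
  exact ⟨E, W, fun p hp => (h1 p hp).1.1, h2, h3⟩

end Pool.Agent.Results.MP_26d9ad_nt.CoversOfToriAllRings
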