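import Pool.Agent.H912.AE.Arith
import Pool.Agent.H912.AE.Dns

/-!
# Integral points on the pull-backs of an affine scheme under power maps

`B` is a ring which embeds in `ℤ[t_1, ..., t_s, 1/g]` for some `s` and some `g ≠ 0`: that is,
`Spec B` is dominated by an open subscheme of the affine space over `ℤ`. For example
`B = ℤ[1/N]`, or any finitely generated subring of `ℚ(t_1, ..., t_s)`.

For a closed subscheme `U` of the affine `n`-space over `B`, given by an arbitrary set `S` of
polynomials, let `U_m = {x : (x_1^m, ..., x_n^m) ∈ U}`. We determine the density of the set of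
the exponents `m` such that `U_m` has an integral point over `B`, and show that for almost all `m`
the scheme `U_m` has no integral points over all `B[1/P]`, for all sets `P` of at most `r` primes,
unless it has one with coordinates in `{0, 1, -1}`.
-/

set_option autoImplicit false

namespace Pool.Agent.Results.MP_26d9ad_nt.PowerPullbacksOfSchemes

open Pool.Agent.H912.AE

/-- `x` is a point of `U_m` over the `B`-algebra `R` with the structure map `φ`, where `U` is the
closed subscheme of the affine space over `B` given by `S` and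
`U_m = {x : (x_1^m, ..., x_n^m) ∈ U}`. -/
def IsPt {n : ℕ} {B R : Type} [CommRing B] [CommRing R] (φ : B →+* R)
    (S : Set (MvPolynomial (Fin n) B)) (m : ℕ) (x : Fin n → R) : Prop :=
  ∀ F ∈ S, MvPolynomial.eval₂ φ (fun i => x i ^ m) F = 0

/-- `ε` is a point of `U_m` over `B` with all coordinates in `{0, 1, -1}`. -/
def IsTrivialPt {n : ℕ} {B : Type} [CommRing B] (S : Set (MvPolynomial (Fin n) B)) (m : ℕ)
    (ε : Fin n → ℤ) : Prop :=
  (∀ i, ε i = 0 ∨ ε i = 1 ∨ ε i = -1) ∧ IsPt (RingHom.id B) S m fun i => (ε i : B)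

open Classical in
/-- `1` if `U` has a point with coordinates in `{0, 1}`, otherwise `1/2` if `U` has a point with
coordinates in `{0, 1, -1}`, otherwise `0`. -/
noncomputable def dens {n : ℕ} {B : Type} [CommRing B] (S : Set (MvPolynomial (Fin n) B)) : ℝ :=
  if ∃ ε : Fin n → ℤ, (∀ i, ε i = 0 ∨ ε i = 1) ∧ IsTrivialPt S 1 ε then 1
  else if ∃ ε : Fin n → ℤ, IsTrivialPt S 1 ε then 1 / 2
  else 0

lemma isTrivialPt_pow {n : ℕ} {B : Type} [CommRing B] {S : Set (MvPolynomial (Fin n) B)} {m : ℕ}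
    {ε : Fin n → ℤ} (hm : m ≠ 0) (h : IsTrivialPt S 1 ε)
    (hε : Odd m ∨ ∀ i, ε i = 0 ∨ ε i = 1) : IsTrivialPt S m ε := by
  refine ⟨h.1, fun F hF => ?_⟩
  have h1 := h.2 F hF
  have h2 : (fun i => ((ε i : ℤ) : B) ^ m) = fun i => ((ε i : ℤ) : B) ^ 1 := by
    funext i
    rw [pow_one, ← Int.cast_pow]
    congr 1
    rcases h.1 i with h3 | h3 | h3
    · rw [h3, zero_pow hm]
    · rw [h3, one_pow]
    · rcases hε with h4 | h4
      · rw [h3, h4.neg_one_pow]
      · rcases h4 i with h5 | h5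
        · rw [h5, zero_pow hm]
        · rw [h5, one_pow]
  rw [h2]
  exact h1

/-- **Main theorem.** Let `B` be a ring which embeds in `ℤ[t_1, ..., t_s, 1/g]`, `g ≠ 0`, and let
`U` be the closed subscheme of the affine `n`-space over `B` given by a set `S` of polynomials.

1. For every `r` and all `m` outside a set of density zero, there are `r` primes `q` and
   homomorphisms `φ` from `B` to the field with `q` elements such that for every point `x` of `U_m`
   over this field there is a point `ε` of `U_m` over `B` with coordinates in `{0, 1, -1}` whose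
   nonzero coordinates are at the places of the nonzero coordinates of `x`.
2. For every `r`, all `m` outside a set of density zero and all sets `P` of at most `r` primes,
   `U_m` has no point over `B[1/P]` unless it has a point over `B` with coordinates in
   `{0, 1, -1}`.
3. The set of `m` such that `U_m` has a point over `B` has a natural density. It is `1` if `U` has
   a point with coordinates in `{0, 1}`, it is `1/2` if `U` has a point with coordinates in
   `{0, 1, -1}` but none with coordinates in `{0, 1}`, and it is `0` otherwise. -/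
theorem result {s n : ℕ} (g : MvPolynomial (Fin s) ℤ) (hg : g ≠ 0) (B : Type) [CommRing B]
    (ι : B →+* Localization.Away g) (hι : Function.Injective ι)
    (S : Set (MvPolynomial (Fin n) B)) :
    (∀ r : ℕ, HasDensity {m | ∃ Q : Finset ℕ, Q.card = r ∧ ∀ q ∈ Q, q.Prime ∧
      ∃ φ : B →+* ZMod q, ∀ x : Fin n → ZMod q, IsPt φ S m x →
        ∃ ε : Fin n → ℤ, IsTrivialPt S m ε ∧ ∀ i, (ε i ≠ 0 ↔ x i ≠ 0)} 1) ∧
    (∀ r : ℕ, HasDensity {m | ∀ P : Finset ℕ, P.card ≤ r → (∀ p ∈ P, p.Prime) →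
      (∃ x : Fin n → Localization.Away (((∏ p ∈ P, p : ℕ) : B)),
        IsPt (algebraMap B (Localization.Away (((∏ p ∈ P, p : ℕ) : B)))) S m x) →
      ∃ ε : Fin n → ℤ, IsTrivialPt S m ε} 1) ∧
    HasDensity {m | ∃ x : Fin n → B, IsPt (RingHom.id B) S m x} (dens S) := by
  classical
  obtain ⟨S', D, hS', hφ⟩ := specialise g hg (Localization.Away g) B ι hι S
  set W : ℕ → Set ℕ := fun r => {m | ∃ Q : Finset ℕ, Q.card = r ∧ ∀ q ∈ Q,
    D < q ∧ WitA S' m q} with hW
  have hWd : ∀ r, HasDensity (W r) 1 := by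
    intro r
    refine full_of fun ε hε => ?_
    obtain ⟨N₀, h⟩ := witnessesG S' (WitA S') (good_witA S') r D hε
    exact ⟨N₀, fun M hM => h M hM⟩
  have hwit : ∀ m q : ℕ, 1 ≤ m → D < q → WitA S' m q → q.Prime ∧ ∃ φ : B →+* ZMod q,
      ∀ x : Fin n → ZMod q, IsPt φ S m x → ∃ ε : Fin n → ℤ, IsTrivialPt S 1 ε ∧
        (Odd m ∨ ∀ i, ε i = 0 ∨ ε i = 1) ∧ ∀ i, (ε i ≠ 0 ↔ x i ≠ 0) := by
    rintro m q hm hDq ⟨hq, h⟩
    obtain ⟨φ, h1⟩ := hφ q hq hDq
    refine ⟨hq, φ, fun x hx => ?_⟩
    obtain ⟨ε, h2, h3, h4, h5⟩ := h x (h1 _ hx)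
    have h6 := mem_Eps.1 h2
    refine ⟨ε, ⟨fun i => ?_, fun F hF => ?_⟩, ?_, fun i => ?_⟩
    · rcases h6 i with h | h | h <;> simp [h]
    · have h7 := hS' ε h2 h5 F hF
      simp only [pow_one]
      exact h7
    · rcases Nat.even_or_odd m with he | ho
      · right
        intro i
        have h7 := h4 he i
        rcases h6 i with h | h | h
        · rw [h] at h7
          norm_num at h7
        · exact Or.inl h
        · exact Or.inr h
      · exact Or.inl ho
    · rw [Ne, h3 i]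
  refine ⟨fun r => ?_, fun r => ?_, ?_⟩
  · refine density_congr (hWd r) density_univ fun m hm hm1 => ⟨fun _ => Set.mem_univ _, fun _ => ?_⟩
    obtain ⟨Q, hQ, hQ'⟩ := hm
    refine ⟨Q, hQ, fun q hq => ?_⟩
    obtain ⟨h1, φ, h2⟩ := hwit m q hm1 (hQ' q hq).1 (hQ' q hq).2
    refine ⟨h1, φ, fun x hx => ?_⟩
    obtain ⟨ε, h3, h4, h5⟩ := h2 x hx
    exact ⟨ε, isTrivialPt_pow (by omega) h3 h4, h5⟩
  · refine density_congr (hWd (r + 1)) density_univ fun m hm hm1 =>
      ⟨fun _ => Set.mem_univ _, fun _ => ?_⟩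
    intro P hP hPp hx
    obtain ⟨Q, hQ, hQ'⟩ := hm
    obtain ⟨q, hqQ, hqP⟩ : ∃ q ∈ Q, q ∉ P :=
      Finset.exists_mem_notMem_of_card_lt_card (by omega)
    obtain ⟨h1, φ, h2⟩ := hwit m q hm1 (hQ' q hqQ).1 (hQ' q hqQ).2
    have : Fact q.Prime := ⟨h1⟩
    have hu : IsUnit (φ (((∏ p ∈ P, p : ℕ) : B))) := by
      rw [map_natCast, isUnit_iff_ne_zero, Ne, ZMod.natCast_eq_zero_iff]
      intro h3
      obtain ⟨p, hp, hqp⟩ := (Prime.dvd_finsetProd_iff h1.prime _).1 h3
      rw [(Nat.prime_dvd_prime_iff_eq h1 (hPp p hp)).1 hqp] at hqP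
      exact hqP hp
    obtain ⟨x, hx⟩ := hx
    obtain ⟨Φ, hΦ⟩ : ∃ Φ : Localization.Away (((∏ p ∈ P, p : ℕ) : B)) →+* ZMod q,
        Φ.comp (algebraMap B _) = φ :=
      ⟨IsLocalization.Away.lift _ hu, IsLocalization.Away.lift_comp _ hu⟩
    obtain ⟨ε, h3, h4, -⟩ := h2 (fun i => Φ (x i)) (fun F hF => by
      have h5 := congrArg Φ (hx F hF)
      rw [map_zero, MvPolynomial.eval₂_comp_left, hΦ] at h5
      rw [← h5]
      congr 1
      funext i
      simp)
    exact ⟨ε, isTrivialPt_pow (by omega) h3 h4⟩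
  · have hW1 : ∀ m ∈ W 1, 1 ≤ m → (∃ x : Fin n → B, IsPt (RingHom.id B) S m x) →
        ∃ ε : Fin n → ℤ, IsTrivialPt S 1 ε ∧ (Odd m ∨ ∀ i, ε i = 0 ∨ ε i = 1) := by
      rintro m ⟨Q, hQ, hQ'⟩ hm1 ⟨x, hx⟩
      obtain ⟨q, hq⟩ := Finset.card_eq_one.1 hQ
      have hqQ : q ∈ Q := by
        rw [hq]
        exact Finset.mem_singleton_self q
      obtain ⟨h1, φ, h2⟩ := hwit m q hm1 (hQ' q hqQ).1 (hQ' q hqQ).2
      obtain ⟨ε, h3, h4, -⟩ := h2 (fun i => φ (x i)) (fun F hF => by
        have h5 := congrArg φ (hx F hF)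
        rw [map_zero, MvPolynomial.eval₂_comp_left, RingHom.comp_id] at h5
        rw [← h5]
        congr 1
        funext i
        simp)
      exact ⟨ε, h3, h4⟩
    unfold dens
    split_ifs with hA hB
    · obtain ⟨ε, h1, h2⟩ := hA
      refine density_congr (hWd 1) density_univ fun m _ hm1 =>
        ⟨fun _ => Set.mem_univ _, fun _ => ?_⟩
      exact ⟨_, (isTrivialPt_pow (m := m) (by omega) h2 (Or.inr h1)).2⟩
    · obtain ⟨ε, h2⟩ := hB
      refine density_congr (hWd 1) density_odd fun m hm hm1 => ⟨fun h => ?_, fun h => ?_⟩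
      · obtain ⟨ε', h3, h4⟩ := hW1 m hm hm1 h
        rcases h4 with h4 | h4
        · exact h4
        · exact absurd ⟨ε', h4, h3⟩ hA
      · exact ⟨_, (isTrivialPt_pow (m := m) (by omega) h2 (Or.inl h)).2⟩
    · refine density_congr (hWd 1) density_empty fun m hm hm1 => ⟨fun h => ?_, fun h => ?_⟩
      · obtain ⟨ε', h3, h4⟩ := hW1 m hm hm1 h
        exact absurd ⟨ε', h3⟩ hB
      · exact absurd h (Set.notMem_empty m)

end Pool.Agent.Results.MP_26d9ad_nt.PowerPullbacksOfSchemes
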